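import Pool.Agent.Results.MP_c4a55f_al.LocCompactProduct
import Pool.Agent.R508.DACMain

set_option linter.all false

namespace Pool.Agent.Results.MP_ff2384_gt.ZMinimalProducts

open Filter Topology Set Usp

universe u v

/-- `z`-minimal groups: the group and its central quotient (with the quotient topology) are
minimal. -/
def IsZMinimal (G : Type v) [Group G] (t : TopologicalSpace G) : Prop :=
  IsMinimal G t ∧ IsMinimal (G ⧸ Subgroup.center G) (QuotientGroup.instTopologicalSpace _)

/-- minimality is transported by topological isomorphisms -/
theorem IsMinimal.of_equiv {A : Type*} {B : Type*} [Group A] [Group B] (tA : TopologicalSpace A)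
    (tB : TopologicalSpace B) (e : A ≃* B) (h : tA = tB.induced e) (hB : IsMinimal B tB) :
    IsMinimal A tA := by
  have hBA : tB = tA.induced e.symm := by
    rw [h, induced_compose]
    have : (e ∘ e.symm : B → B) = id := by funext b; simp
    rw [this, induced_id]
  have hid : (e.symm ∘ e : A → A) = id := by funext a; simp
  refine ⟨?_, ?_, ?_⟩
  · haveI := hB.1
    rw [h]
    exact topologicalGroup_induced e
  · haveI := hB.2.1
    rw [h]
    letI := tB.induced e
    exact T2Space.of_injective_continuous e.injective continuous_induced_dom
  · intro s hs hsg hst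
    have h1 : tB ≤ s.induced e.symm := by
      rw [hBA]; exact induced_mono hs
    have h2 : @IsTopologicalGroup B (s.induced e.symm) _ := by
      exact topologicalGroup_induced e.symm
    have h3 : @T2Space B (s.induced e.symm) := by
      letI := s.induced e.symm
      exact T2Space.of_injective_continuous e.symm.injective continuous_induced_dom
    have h4 := hB.2.2 _ h1 h2 h3
    rw [h, ← h4, induced_compose, hid, induced_id]

theorem center_compact' {G : Type*} [Group G] [t : TopologicalSpace G] [LocallyCompactSpace G]
    (h : IsMinimal G t) : IsCompact (Subgroup.center G : Set G) := by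
  haveI := h.1
  haveI := h.2.1
  have : Pool.Agent.R508.DAC.IsMinimalGroup G := by
    intro s hs1 hs2 hs3
    exact h.2.2 s hs3 hs1 hs2
  exact isCompact_iff_compactSpace.2 (Pool.Agent.R508.DAC.center_compact this)

theorem result {ι : Type u} (G : ι → Type v) [∀ i, Group (G i)] [t : ∀ i, TopologicalSpace (G i)]
    [∀ i, LocallyCompactSpace (G i)] (hz : ∀ i, IsZMinimal (G i) (t i))
    (hcase : ∀ i, SecondCountableTopology (G i ⧸ Subgroup.center (G i)) ∨
      IsMinimal ((G i ⧸ Subgroup.center (G i)) ⧸ Subgroup.center (G i ⧸ Subgroup.center (G i)))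
        (QuotientGroup.instTopologicalSpace _)) :
    IsZMinimal (∀ i, G i) Pi.topologicalSpace := by
  classical
  haveI : ∀ i, IsTopologicalGroup (G i) := fun i => (hz i).1.1
  haveI : ∀ i, T2Space (G i) := fun i => (hz i).1.2.1
  constructor
  · exact Pool.Agent.Results.MP_c4a55f_al.LocCompactProduct.result G (fun i => (hz i).1)
      (fun i => Or.inr ⟨center_compact' (hz i).1, (hz i).2⟩)
  · -- the product of the quotients
    have hH : IsMinimal (∀ i, G i ⧸ Subgroup.center (G i)) Pi.topologicalSpace := by
      refine Pool.Agent.Results.MP_c4a55f_al.LocCompactProduct.result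
        (fun i => G i ⧸ Subgroup.center (G i)) (fun i => (hz i).2) (fun i => ?_)
      rcases hcase i with h | h
      · exact Or.inl ⟨inferInstance, h⟩
      · exact Or.inr ⟨center_compact' (hz i).2, h⟩
    let f : (∀ i, G i) →* (∀ i, G i ⧸ Subgroup.center (G i)) :=
      Pi.monoidHom fun i => (QuotientGroup.mk' (Subgroup.center (G i))).comp (Pi.evalMonoidHom G i)
    have hfm : (f : (∀ i, G i) → (∀ i, G i ⧸ Subgroup.center (G i))) =
        Pi.map (fun i => (QuotientGroup.mk : G i → G i ⧸ Subgroup.center (G i))) := rfl
    have hfq : IsOpenQuotientMap f := by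
      rw [hfm]
      exact IsOpenQuotientMap.piMap fun i => QuotientGroup.isOpenQuotientMap_mk
    have hker : f.ker = Subgroup.center (∀ i, G i) := by
      ext x
      rw [MonoidHom.mem_ker]
      constructor
      · intro h
        rw [Subgroup.mem_center_iff]
        intro g
        funext i
        have h1 : (QuotientGroup.mk (x i) : G i ⧸ Subgroup.center (G i)) = 1 := congrFun h i
        rw [QuotientGroup.eq_one_iff] at h1
        exact Subgroup.mem_center_iff.1 h1 (g i)
      · intro h
        funext i
        show (QuotientGroup.mk (x i) : G i ⧸ Subgroup.center (G i)) = 1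
        rw [QuotientGroup.eq_one_iff, Subgroup.mem_center_iff]
        intro g
        have := congrFun (Subgroup.mem_center_iff.1 h (Pi.mulSingle i g)) i
        simpa using this
    let e : ((∀ i, G i) ⧸ Subgroup.center (∀ i, G i)) ≃* (∀ i, G i ⧸ Subgroup.center (G i)) :=
      (QuotientGroup.quotientMulEquivOfEq hker.symm).trans
        (QuotientGroup.quotientKerEquivOfSurjective f hfq.surjective)
    have he : ∀ x : (∀ i, G i), e (QuotientGroup.mk x) = f x := fun x => rfl
    have hmk := QuotientGroup.isQuotientMap_mk (Subgroup.center (∀ i, G i))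
    have hec : Continuous e := by
      rw [hmk.continuous_iff]
      exact hfq.continuous
    have heo : IsOpenMap e := by
      intro A hA
      have h1 : IsOpen ((QuotientGroup.mk : (∀ i, G i) → (∀ i, G i) ⧸ Subgroup.center (∀ i, G i)) ⁻¹' A) :=
        hA.preimage hmk.continuous
      have h2 : e '' A = f '' ((QuotientGroup.mk : (∀ i, G i) →
          (∀ i, G i) ⧸ Subgroup.center (∀ i, G i)) ⁻¹' A) := by
        ext y
        constructor
        · rintro ⟨a, ha, rfl⟩
          obtain ⟨x, rfl⟩ := hmk.surjective a
          exact ⟨x, ha, (he x).symm⟩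
        · rintro ⟨x, hx, rfl⟩
          exact ⟨_, hx, he x⟩
      rw [h2]
      exact hfq.isOpenMap _ h1
    have hind : IsInducing e :=
      (IsOpenEmbedding.of_continuous_injective_isOpenMap hec e.injective heo).isInducing
    exact IsMinimal.of_equiv _ _ e hind.eq_induced hH

end Pool.Agent.Results.MP_ff2384_gt.ZMinimalProducts
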